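import Pool.Agent.H.MP_040564_an.C

namespace Pool.Agent.Results.MP_040564_an.No

open Pool.Agent.H.MP_a83649_an Pool.Agent.H.MP_04e97d_an Pool.Agent.H.MP_040564_an

theorem result : ∃ (X : Type) (_ : NormedAddCommGroup X) (_ : NormedSpace ℂ X) (e : X ≃L[ℂ] LP),
    Lat (fun x i => e x i) ∧ ∃ A : X →L[ℂ] X, Bad3 (fun x i => e x i) A :=
  ⟨XN, inferInstance, inferInstance, eqv, gen3 eqv eqv_norm⟩

end Pool.Agent.Results.MP_040564_an.No
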